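import Pool.Agent.SZG.StmtsM

/-! # SZG, row RH2. -/

set_option autoImplicit false

namespace Pool.Agent.SZG.H5

open scoped BigOperators
open Pool.Agent.THS

section

variable {K ι : Type} [Field K] [Finite ι] (v : AbsoluteValue K ℝ)

theorem le_nv (y : ι → K) (i : ι) : v (y i) ≤ nv v y :=
  le_ciSup (f := fun i => v (y i)) (Set.finite_range _).bddAbove i

theorem exists_nv [Nonempty ι] (y : ι → K) : ∃ i, v (y i) = nv v y :=
  exists_eq_ciSup_of_finite (f := fun i => v (y i))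

theorem nv_pos {y : ι → K} (hy : y ≠ 0) : 0 < nv v y := by
  obtain ⟨i, hi⟩ := Function.ne_iff.1 hy
  exact lt_of_lt_of_le (v.pos hi) (le_nv v y i)

end

theorem sum_le {K κ : Type} [Field K] (v : AbsoluteValue K ℝ) (hna : IsNonarchimedean v)
    (S : Finset κ) (f : κ → K) (B : ℝ) (hB : 0 ≤ B) (h : ∀ c ∈ S, v (f c) ≤ B) :
    v (∑ c ∈ S, f c) ≤ B := by
  classical
  induction S using Finset.induction_on with
  | empty => simpa using hB
  | insert a S ha ih =>
    rw [Finset.sum_insert ha]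
    exact (hna _ _).trans (max_le (h a (Finset.mem_insert_self _ _))
      (ih (fun c hc => h c (Finset.mem_insert_of_mem hc))))

theorem v_sgn {K : Type} [Field K] (v : AbsoluteValue K ℝ) {g : ℕ} (b c : Ch g) :
    v ((sgn b c : ℤ) : K) = 1 := by
  unfold sgn
  rw [Int.cast_pow, Int.cast_neg, Int.cast_one, map_pow, v.map_neg, map_one, one_pow]

theorem sub_le' {K : Type} [Field K] (v : AbsoluteValue K ℝ) (hna : IsNonarchimedean v)
    {x y : K} {B : ℝ} (hx : v x ≤ B) (hy : v y ≤ B) : v (x - y) ≤ B := by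
  rw [sub_eq_add_neg]
  refine (hna _ _).trans (max_le hx ?_)
  rwa [v.map_neg]

theorem rh2 (hTEN : TenStmt) (hXUB : XubStmt) (hTAU : TauStmt) (hWXC : WxcStmt)
    (hRCG : RcgStmt) : Rh2Stmt := by
  intro K I _ _ v θ g E L0 c e s T x W X Z δ hD p hp k k'
  obtain ⟨W0, -, -, -, Wsm, Wpp, -, -⟩ := hWXC K I v L0 c e W X hD.wx
  have hna := hD.na
  have hθ := hD.th0
  have htau := hTAU K I v θ g E L0 c e s T x W X Z δ hD
  have hxub := hXUB K I v g E L0 c e s T x W X hD.qs hD.wx hD.na hD.v2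
  have hten := hTEN K I v g E L0 c e s T x hD.qs hD.na hD.v2
  obtain ⟨rc1, rc2, rc3⟩ := hRCG K v θ hna hθ.le hD.th1
  have hW : ∀ i, 0 < W i := hD.wx.pos
  set t0 : ℝ := nv v (T 0) with ht0
  have ht0p : 0 < t0 := nv_pos v (hD.qs.T0 0)
  set n0 : ℝ := nv v (x 0) with hn0
  have hn0p : 0 < n0 := nv_pos v (hD.qs.x0 0)
  have hsp : 0 < v s := v.pos hD.qs.s0
  have hsn : v s * n0 ^ 2 = t0 ^ 2 := (hxub 0 0).2.2.2.1
  -- the indices
  set i : I := k • Z + δ with hi
  have e2i : i + i = (2 * k) • Z + (2 : ℤ) • δ := by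
    rw [hi, two_mul, add_smul, two_smul]; abel
  have e2i' : 2 • i = (2 * k) • Z + (2 : ℤ) • δ := by rw [two_nsmul, e2i]
  have e2k : k • Z + k • Z = (2 * k) • Z := by rw [two_mul, add_smul]
  have eip : i + k' • Z = (k + k') • Z + δ := by rw [hi, add_smul]; abel
  have eim : i - k' • Z = (k - k') • Z + δ := by rw [hi, sub_smul]; abel
  have ekp : k • Z + k' • Z = (k + k') • Z := by rw [add_smul]
  have ekm : k • Z - k' • Z = (k - k') • Z := by rw [sub_smul]
  -- weights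
  have hW2i : W ((2 * k) • Z + (2 : ℤ) • δ) = W i ^ 4 := by
    have h1 := Wpp i i
    rw [sub_self, W0, mul_one, e2i] at h1
    rw [h1]; ring
  have hW2k : W ((2 * k) • Z) = W (k • Z) ^ 4 := by
    have h1 := Wpp (k • Z) (k • Z)
    rw [sub_self, W0, mul_one, e2k] at h1
    rw [h1]; ring
  have hWpm : W ((k + k') • Z + δ) * W ((k - k') • Z + δ) = W i ^ 2 * W (k' • Z) ^ 2 := by
    have h1 := Wpp i (k' • Z)
    rwa [eip, eim] at h1
  have hWkpm : W ((k + k') • Z) * W ((k - k') • Z) = W (k • Z) ^ 2 * W (k' • Z) ^ 2 := by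
    have h1 := Wpp (k • Z) (k' • Z)
    rwa [ekp, ekm] at h1
  -- canonical sizes
  have hcanZ : ∀ n : ℤ, nv v (T (n • Z)) = t0 * W (n • Z) := by
    intro n
    have h1 := hD.can n 0
    rwa [zero_smul, add_zero] at h1
  have hTpZ : ∀ n : ℤ, v (T (n • Z) (p n)) = t0 * W (n • Z) := fun n => by rw [hp n, hcanZ n]
  have hTpδ : ∀ n : ℤ, v (T (n • Z + δ) (p n)) = t0 * W (n • Z + δ) := by
    intro n
    have h1 := (htau n 1 (p n) (hp n)).1
    rwa [one_smul] at h1
  have hTpδ' : ∀ (n : ℤ) (e' : Ch g), v (T (n • Z + δ) e' -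
      T (n • Z + δ) (p n) / T (n • Z) (p n) * T (n • Z) e') ≤ θ * (t0 * W (n • Z + δ)) := by
    intro n e'
    have h1 := (htau n 1 (p n) (hp n)).2 e'
    rwa [one_smul] at h1
  have hτv : ∀ n : ℤ, v (T (n • Z + δ) (p n) / T (n • Z) (p n)) =
      W (n • Z + δ) / W (n • Z) := by
    intro n
    rw [map_div₀, hTpδ, hTpZ, mul_div_mul_left _ _ ht0p.ne']
  have hTle : ∀ (j : I) (a : Ch g), v (T j a) ≤ t0 * W j :=
    fun j a => (le_nv v (T j) a).trans (hxub j 0).1
  set τp : K := T ((k + k') • Z + δ) (p (k + k')) / T ((k + k') • Z) (p (k + k')) with hτp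
  set τm : K := T ((k - k') • Z + δ) (p (k - k')) / T ((k - k') • Z) (p (k - k')) with hτm
  set τ2 : K := T ((2 * k) • Z + (2 : ℤ) • δ) (p (2 * k)) / T ((2 * k) • Z) (p (2 * k)) with hτ2
  have hvp : v τp = W ((k + k') • Z + δ) / W ((k + k') • Z) := hτv _
  have hvm : v τm = W ((k - k') • Z + δ) / W ((k - k') • Z) := hτv _
  have hv2 : v τ2 = W i ^ 4 / W (k • Z) ^ 4 := by
    rw [hτ2, map_div₀, hTpZ, (htau (2 * k) 2 (p (2 * k)) (hp (2 * k))).1,
      mul_div_mul_left _ _ ht0p.ne', hW2i, hW2k]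
  -- (alpha)
  have hα : ∀ a b : Ch g, v (s * (x i (a, b) * x i (a, b) -
      τ2 * (x (k • Z) (a, b) * x (k • Z) (a, b)))) ≤ θ * (t0 ^ 2 * W i ^ 4) := by
    intro a b
    have h1 : s * (x i (a, b) * x i (a, b) - τ2 * (x (k • Z) (a, b) * x (k • Z) (a, b))) =
        RG T a b i i - τ2 * RG T a b (k • Z) (k • Z) := by
      rw [hD.qs.rie, hD.qs.rie]; ring
    have h2 : RG T a b i i - τ2 * RG T a b (k • Z) (k • Z) =
        ∑ c : Ch g, (sgn b (a + c) : K) *
          ((T ((2 * k) • Z + (2 : ℤ) • δ) (a + c) - τ2 * T ((2 * k) • Z) (a + c)) * T 0 c) := by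
      unfold RG
      rw [e2i, sub_self, e2k, sub_self, Finset.mul_sum, ← Finset.sum_sub_distrib]
      exact Finset.sum_congr rfl (fun c _ => by ring)
    rw [h1, h2]
    refine sum_le v hna _ _ _ (by positivity) (fun c _ => ?_)
    rw [map_mul, v_sgn, one_mul, map_mul]
    have h3 := (htau (2 * k) 2 (p (2 * k)) (hp (2 * k))).2 (a + c)
    have h4 : v (T 0 c) ≤ t0 := le_nv v (T 0) c
    rw [hW2i] at h3
    calc _ ≤ (θ * (t0 * W i ^ 4)) * t0 :=
          mul_le_mul h3 h4 (v.nonneg _) (by positivity)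
      _ = _ := by ring
  -- (beta)
  have hβ : ∀ a b : Ch g, v (s * (x i (a, b) * x (k' • Z) (a, b) -
      τp * τm * (x (k • Z) (a, b) * x (k' • Z) (a, b)))) ≤
      θ * (t0 ^ 2 * (W i ^ 2 * W (k' • Z) ^ 2)) := by
    intro a b
    have h1 : s * (x i (a, b) * x (k' • Z) (a, b) -
        τp * τm * (x (k • Z) (a, b) * x (k' • Z) (a, b))) =
        RG T a b i (k' • Z) - τp * τm * RG T a b (k • Z) (k' • Z) := by
      rw [hD.qs.rie, hD.qs.rie]; ring
    have h2 : RG T a b i (k' • Z) - τp * τm * RG T a b (k • Z) (k' • Z) =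
        ∑ c : Ch g, (sgn b (a + c) : K) *
          ((T ((k + k') • Z + δ) (a + c) - τp * T ((k + k') • Z) (a + c)) *
              T ((k - k') • Z + δ) c +
            τp * T ((k + k') • Z) (a + c) *
              (T ((k - k') • Z + δ) c - τm * T ((k - k') • Z) c)) := by
      unfold RG
      rw [eip, eim, ekp, ekm, Finset.mul_sum, ← Finset.sum_sub_distrib]
      exact Finset.sum_congr rfl (fun c _ => by ring)
    rw [h1, h2]
    refine sum_le v hna _ _ _ (by positivity) (fun c _ => ?_)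
    rw [map_mul, v_sgn, one_mul]
    have hb : θ * (t0 ^ 2 * (W i ^ 2 * W (k' • Z) ^ 2)) =
        (θ * (t0 * W ((k + k') • Z + δ))) * (t0 * W ((k - k') • Z + δ)) := by
      rw [← hWpm]; ring
    rw [hb]
    refine (hna _ _).trans (max_le ?_ ?_)
    · rw [map_mul]
      exact mul_le_mul (hTpδ' _ _) (hTle _ _) (v.nonneg _)
        (mul_nonneg hθ.le (mul_nonneg ht0p.le (hW _).le))
    · rw [map_mul]
      have h3 : v (τp * T ((k + k') • Z) (a + c)) ≤ t0 * W ((k + k') • Z + δ) := by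
        rw [map_mul, hvp]
        have h4 := hTle ((k + k') • Z) (a + c)
        have h5 : W ((k + k') • Z + δ) / W ((k + k') • Z) * v (T ((k + k') • Z) (a + c)) ≤
            W ((k + k') • Z + δ) / W ((k + k') • Z) * (t0 * W ((k + k') • Z)) :=
          mul_le_mul_of_nonneg_left h4 (div_nonneg (hW _).le (hW _).le)
        refine h5.trans (le_of_eq ?_)
        have h6 := (hW ((k + k') • Z)).ne'
        field_simp
      calc _ ≤ (t0 * W ((k + k') • Z + δ)) * (θ * (t0 * W ((k - k') • Z + δ))) :=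
            mul_le_mul h3 (hTpδ' _ _) (v.nonneg _) (mul_nonneg ht0p.le (hW _).le)
        _ = _ := by ring
  -- the good coordinate
  have hnk : nv v (x (k • Z)) = n0 * W (k • Z) ^ 2 := by
    refine (hxub (k • Z) 0).2.2.2.2.1 ?_
    rw [two_nsmul, e2k]
    exact hcanZ _
  have hnk' : nv v (x (k' • Z)) = n0 * W (k' • Z) ^ 2 := by
    refine (hxub (k' • Z) 0).2.2.2.2.1 ?_
    rw [two_nsmul, ← add_smul]
    exact hcanZ _
  obtain ⟨⟨a, b⟩, hab⟩ := exists_nv v (fun t => x (k • Z) t * x (k' • Z) t)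
  have hkk : v s * nv v (fun t => x (k • Z) t * x (k' • Z) t) =
      t0 ^ 2 * (W (k • Z) ^ 2 * W (k' • Z) ^ 2) := by
    rw [← hten (k • Z) (k' • Z), ekp, ekm, hcanZ, hcanZ, ← hWkpm]
    ring
  have hprod : v (x (k • Z) (a, b)) * v (x (k' • Z) (a, b)) =
      (n0 * W (k • Z) ^ 2) * (n0 * W (k' • Z) ^ 2) := by
    rw [← map_mul]
    have h1 : v (x (k • Z) (a, b) * x (k' • Z) (a, b)) =
        nv v (fun t => x (k • Z) t * x (k' • Z) t) := hab
    rw [h1]
    apply mul_left_cancel₀ hsp.ne'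
    rw [hkk, ← hsn]
    ring
  have hle1 : v (x (k • Z) (a, b)) ≤ n0 * W (k • Z) ^ 2 := by
    rw [← hnk]; exact le_nv v _ _
  have hle2 : v (x (k' • Z) (a, b)) ≤ n0 * W (k' • Z) ^ 2 := by
    rw [← hnk']; exact le_nv v _ _
  have hWk := hW (k • Z)
  have hWk' := hW (k' • Z)
  have hWi := hW i
  have hpos1 : 0 < n0 * W (k • Z) ^ 2 := by positivity
  have hpos2 : 0 < n0 * W (k' • Z) ^ 2 := by positivity
  have heq1 : v (x (k • Z) (a, b)) = n0 * W (k • Z) ^ 2 := by
    refine le_antisymm hle1 ?_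
    by_contra hcon
    push Not at hcon
    have h1 : v (x (k • Z) (a, b)) * v (x (k' • Z) (a, b)) <
        (n0 * W (k • Z) ^ 2) * (n0 * W (k' • Z) ^ 2) :=
      mul_lt_mul hcon hle2 (by
        rcases (v.nonneg (x (k' • Z) (a, b))).lt_or_eq with h | h
        · exact h
        · exfalso
          rw [← h, mul_zero] at hprod
          exact (mul_pos hpos1 hpos2).ne hprod) hpos1.le
    exact h1.ne hprod
  have heq2 : v (x (k' • Z) (a, b)) = n0 * W (k' • Z) ^ 2 := by
    rw [heq1] at hprod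
    exact mul_left_cancel₀ hpos1.ne' hprod
  -- conclusion
  have hxk0 : x (k • Z) (a, b) ≠ 0 := by
    intro h
    rw [h, map_zero] at heq1
    exact hpos1.ne heq1
  have hτp0 : τp ≠ 0 := by
    intro h
    rw [h, map_zero] at hvp
    exact (div_pos (hW _) (hW _)).ne hvp
  have hτm0 : τm ≠ 0 := by
    intro h
    rw [h, map_zero] at hvm
    exact (div_pos (hW _) (hW _)).ne hvm
  have hτ20 : τ2 ≠ 0 := by
    intro h
    rw [h, map_zero] at hv2
    exact (div_pos (by positivity) (by positivity) : 0 < W i ^ 4 / W (k • Z) ^ 4).ne hv2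
  have hvτ : v (τp * τm * x (k • Z) (a, b)) = n0 * W i ^ 2 := by
    rw [map_mul, map_mul, hvp, hvm, heq1, div_mul_div_comm, hWpm, hWkpm]
    field_simp
  have hvτ2 : v (τ2 * (x (k • Z) (a, b) * x (k • Z) (a, b))) = n0 ^ 2 * W i ^ 4 := by
    rw [map_mul, map_mul, hv2, heq1]
    field_simp
  have hB : v (x i (a, b) / (τp * τm * x (k • Z) (a, b)) - 1) ≤ θ := by
    have h1 := hβ a b
    have h2 : s * (x i (a, b) * x (k' • Z) (a, b) -
        τp * τm * (x (k • Z) (a, b) * x (k' • Z) (a, b))) =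
        s * (x i (a, b) - τp * τm * x (k • Z) (a, b)) * x (k' • Z) (a, b) := by ring
    rw [h2, map_mul, map_mul, heq2] at h1
    have h3 : v s * n0 * (W (k' • Z) ^ 2 * v (x i (a, b) - τp * τm * x (k • Z) (a, b))) ≤
        v s * n0 * (W (k' • Z) ^ 2 * (θ * (n0 * W i ^ 2))) := by
      calc _ = v s * v (x i (a, b) - τp * τm * x (k • Z) (a, b)) * (n0 * W (k' • Z) ^ 2) := by
            ring
        _ ≤ _ := h1
        _ = _ := by rw [← hsn]; ring
    have h4 : v (x i (a, b) - τp * τm * x (k • Z) (a, b)) ≤ θ * (n0 * W i ^ 2) :=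
      le_of_mul_le_mul_left (le_of_mul_le_mul_left h3 (by positivity)) (by positivity)
    have h5 : x i (a, b) / (τp * τm * x (k • Z) (a, b)) - 1 =
        (x i (a, b) - τp * τm * x (k • Z) (a, b)) / (τp * τm * x (k • Z) (a, b)) := by
      field_simp
    rw [h5, map_div₀, hvτ, div_le_iff₀ (by positivity)]
    exact h4
  have hA : v (x i (a, b) * x i (a, b) / (τ2 * (x (k • Z) (a, b) * x (k • Z) (a, b))) - 1) ≤
      θ := by
    have h1 := hα a b
    rw [map_mul] at h1
    have h3 : v s * v (x i (a, b) * x i (a, b) -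
        τ2 * (x (k • Z) (a, b) * x (k • Z) (a, b))) ≤ v s * (θ * (n0 ^ 2 * W i ^ 4)) := by
      calc _ ≤ _ := h1
        _ = _ := by rw [← hsn]; ring
    have h4 := le_of_mul_le_mul_left h3 hsp
    have h5 : x i (a, b) * x i (a, b) / (τ2 * (x (k • Z) (a, b) * x (k • Z) (a, b))) - 1 =
        (x i (a, b) * x i (a, b) - τ2 * (x (k • Z) (a, b) * x (k • Z) (a, b))) /
          (τ2 * (x (k • Z) (a, b) * x (k • Z) (a, b))) := by
      field_simp
    rw [h5, map_div₀, hvτ2, div_le_iff₀ (by positivity)]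
    exact h4
  have hxi0 : x i (a, b) ≠ 0 := by
    intro h
    have h1 := (rc1 _ hB).1
    rw [h, zero_div, map_zero] at h1
    exact zero_ne_one h1
  have hB2 := rc3 _ (-2) hB
  have hfin := rc2 _ _ hA hB2
  have h6 : x i (a, b) * x i (a, b) / (τ2 * (x (k • Z) (a, b) * x (k • Z) (a, b))) *
      (x i (a, b) / (τp * τm * x (k • Z) (a, b))) ^ (-2 : ℤ) = (τp * τm) ^ 2 / τ2 := by
    rw [zpow_neg]
    have h7 : (x i (a, b) / (τp * τm * x (k • Z) (a, b))) ^ (2 : ℤ) =
        (x i (a, b) / (τp * τm * x (k • Z) (a, b))) ^ (2 : ℕ) := by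
      exact_mod_cast zpow_natCast (x i (a, b) / (τp * τm * x (k • Z) (a, b))) 2
    rw [h7]
    field_simp
  rw [h6] at hfin
  exact hfin

end Pool.Agent.SZG.H5
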